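import Pool.Agent.PSS.StmtsG

/-!
# Squad PSS, row ADS: the class (A) + (S) is admissible
-/

namespace Pool.Agent.PSS.H10

open Pool.Agent.PSS

section

variable {V V' : Type} [Group V] [Group V'] {E : Subgroup (MulAut V)} {E' : Subgroup (MulAut V')}
  {π : V →* V'}

theorem qr_comm (hQ : Qr E E' π) (hab : ∀ a b : V, a * b = b * a) :
    ∀ a b : V', a * b = b * a := by
  intro a b
  obtain ⟨x, rfl⟩ := hQ.sur a
  obtain ⟨y, rfl⟩ := hQ.sur b
  rw [← map_mul, hab, map_mul]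

theorem qr_pow (hQ : Qr E E' π) {a' : MulAut V'} (ha' : a' ∈ E') : a' ^ Nat.card E = 1 := by
  obtain ⟨a, ha, h⟩ := hQ.lif a' ha'
  have h1 : ∀ (k : ℕ) (v : V), π ((a ^ k) v) = (a' ^ k) (π v) := by
    intro k
    induction k with
    | zero => intro v; rw [pow_zero, pow_zero]; rfl
    | succ k ih =>
      intro v
      rw [pow_succ, pow_succ, MulAut.mul_apply, MulAut.mul_apply, ih, h]
  have h2 : (⟨a, ha⟩ : E) ^ Nat.card E = 1 := pow_card_eq_one'
  have h3 : a ^ Nat.card E = 1 := congrArg Subtype.val h2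
  ext w
  obtain ⟨v, rfl⟩ := hQ.sur w
  rw [← h1, h3]
  rfl

theorem qr_card [Finite V'] (hQ : Qr E E' π) {ℓ : ℕ} (hl : ℓ.Prime) (hE : ¬ ℓ ∣ Nat.card E) :
    ¬ ℓ ∣ Nat.card E' := by
  intro h
  have : Fact ℓ.Prime := ⟨hl⟩
  have : Finite (MulAut V') := Finite.of_injective (fun a : MulAut V' => (a : V' → V'))
    DFunLike.coe_injective
  obtain ⟨x, hx⟩ := exists_prime_orderOf_dvd_card' ℓ h
  apply hE
  rw [← hx]
  apply orderOf_dvd_of_pow_eq_one
  apply Subtype.ext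
  exact qr_pow hQ x.2

end

theorem ads (hc : CyqStmt) : AdsStmt := by
  intro ℓ hl
  refine ⟨?_, ?_, ?_, ?_⟩
  · rintro V _ E W ⟨C, U, X, h⟩ h0
    apply h.nt
    rw [eq_bot_iff, ← h0, ← h.uw]
    exact le_sup_left
  · rintro V _ E W ⟨C, U, X, h⟩ a ha w hw
    have h1 : W.map a.toMonoidHom ≤ W := by
      rw [← h.uw, Subgroup.map_sup]
      apply sup_le
      · rintro _ ⟨u, hu, rfl⟩
        exact (le_sup_left : U ≤ U ⊔ X) (h.su a ha u hu)
      · rintro _ ⟨u, hu, rfl⟩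
        exact (le_sup_right : X ≤ U ⊔ X) (h.sx a ha u hu)
    exact h1 ⟨w, hw, rfl⟩
  · rintro V V' _ _ E E' W π hQ ⟨C, U, X, h⟩
    have hinj : Function.Injective π.toMonoidHom := π.injective
    have hst : ∀ S : Subgroup V, (∀ a ∈ E, ∀ u ∈ S, a u ∈ S) → ∀ a ∈ E',
        ∀ u ∈ S.map π.toMonoidHom, a u ∈ S.map π.toMonoidHom := by
      rintro S hS a' ha' _ ⟨u, hu, rfl⟩
      obtain ⟨a, ha, h1⟩ := hQ.lif a' ha'
      exact ⟨a u, hS a ha u hu, h1 u⟩
    have hker : π.toMonoidHom.ker = ⊥ := (MonoidHom.ker_eq_bot_iff _).2 hinj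
    refine ⟨C.map π.toMonoidHom, U.map π.toMonoidHom, X.map π.toMonoidHom, qr_comm hQ h.ab, ?_, ?_,
      ?_, ?_, ?_, ?_, hst U h.su, hst X h.sx, ?_⟩
    · exact hc.1 V V' E E' _ h.ab hQ C h.cy (by rw [hker, inf_bot_eq])
    · rw [← Subgroup.map_inf _ _ _ hinj, h.cw, Subgroup.map_bot]
    · rw [← Subgroup.map_sup, h.jn]
      exact Subgroup.map_top_of_surjective _ hQ.sur
    · rw [← Subgroup.map_inf _ _ _ hinj, h.ux, Subgroup.map_bot]
    · rw [← Subgroup.map_sup, h.uw]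
    · intro h0
      exact h.nt ((Subgroup.map_eq_bot_iff_of_injective _ hinj).1 h0)
    · rintro a' ha' _ ⟨u, hu, rfl⟩ hu1 hfix _ ⟨w, hw, rfl⟩
      obtain ⟨a, ha, h1⟩ := hQ.lif a' ha'
      have h2 : a u = u := by
        apply hinj
        rw [h1]
        exact hfix
      have h3 : u ≠ 1 := by
        rintro rfl
        exact hu1 (map_one _)
      rw [← h1, h.fr a ha u hu h3 h2 w hw]
  · rintro V V' _ _ _ _ E E' W π hp hE hab hQ ⟨C, U, X, h⟩ hker ⟨v, hv⟩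
    have hab' := qr_comm hQ hab
    have hE' := qr_card hQ hl hE
    have hp' : IsPGroup ℓ V' := hp.of_surjective π hQ.sur
    have h1 : Cyc E' (C.map π) := hc.1 V V' E E' π hab hQ C h.cy (by rw [hker]; exact h.cw)
    have h2 : C.map π = ⊤ := by
      have h3 : (C ⊔ W).map π = ⊤ := by
        rw [h.jn]
        exact Subgroup.map_top_of_surjective _ hQ.sur
      rw [Subgroup.map_sup] at h3
      have h4 : W.map π = ⊥ := by
        rw [eq_bot_iff]
        rintro _ ⟨w, hw, rfl⟩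
        rw [← hker] at hw
        exact (MonoidHom.mem_ker).1 hw
      rwa [h4, sup_bot_eq] at h3
    rw [h2] at h1
    have h5 : (⊤ : Subgroup V') ≠ ⊥ := by
      intro h0
      apply hv
      have h6 : v ∈ (⊤ : Subgroup V') := Subgroup.mem_top v
      rw [h0] at h6
      exact (Subgroup.mem_bot).1 h6
    obtain ⟨C₁, Y₁, k1, k2, k3, k4, k5, k6⟩ := hc.2 ℓ V' E' hl hp' hE' hab' ⊤ h1 h5
    refine ⟨Y₁, C₁, Y₁, ⊥, hab', k1, k2, k3, inf_bot_eq _, sup_bot_eq _, k4, k5, ?_, k6⟩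
    intro a _ x hx
    rw [Subgroup.mem_bot] at hx ⊢
    rw [hx, map_one]

end Pool.Agent.PSS.H10
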