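import Pool.Agent.PSS.StmtsS2

/-!
# Squad PSS, row DGZ: `Gz` is a derivation modulo `q`
-/

namespace Pool.Agent.PSS.S2.H10

open Pool.Agent.PSS.S2

section

variable {R A : Type} [CommRing R] [Ring A] [Algebra R A] {q : R}

theorem cg_sub {a a' b b' : A} (h : Cg q a a') (h' : Cg q b b') : Cg q (a - b) (a' - b') := by
  obtain ⟨d, hd⟩ := h
  obtain ⟨e, he⟩ := h'
  refine ⟨d - e, ?_⟩
  rw [smul_sub, ← hd, ← he]
  abel

theorem cg_add_right {a a' : A} (h : Cg q a a') (b : A) : Cg q (a + b) (a' + b) := by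
  obtain ⟨d, hd⟩ := h
  exact ⟨d, by rw [← hd]; abel⟩

theorem cg_mul_left {a a' : A} (h : Cg q a a') (b : A) : Cg q (b * a) (b * a') := by
  obtain ⟨d, hd⟩ := h
  exact ⟨b * d, by rw [← mul_sub, hd, mul_smul_comm]⟩

theorem cg_mul_right {a a' : A} (h : Cg q a a') (b : A) : Cg q (a * b) (a' * b) := by
  obtain ⟨d, hd⟩ := h
  exact ⟨d * b, by rw [← sub_mul, hd, smul_mul_assoc]⟩

end

theorem dgz (hT : ThlStmt) : DgzStmt := by
  intro R V A K _ _ _ _ _ _ q α z lam x y χ N hF hN a b
  let f : A →ₗ[R] A := (LinearMap.mulRight R (1 - α z⁻¹)).comp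
    (N.comp (LinearMap.mulLeft R a) - (LinearMap.mulLeft R a).comp N)
  have hf : ∀ c, f c = (N (a * c) - a * N c) * (1 - α z⁻¹) := fun c => rfl
  have hR : RLq q α f := by
    intro c v
    have hv : α v * (1 - α z⁻¹) = (1 - α z⁻¹) * α v := by
      rw [mul_sub, sub_mul, mul_one, one_mul, ← map_mul, ← map_mul, mul_comm]
    have h1 : Cg q (N (a * (c * α v))) (N (a * c) * α v + χ v • (a * c * α v)) := by
      rw [← mul_assoc]
      exact hN.lin _ _
    have h2 : Cg q (a * N (c * α v)) (a * (N c * α v + χ v • (c * α v))) :=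
      cg_mul_left (hN.lin _ _) a
    have h3 := cg_mul_right (cg_sub h1 h2) (1 - α z⁻¹)
    have e : (N (a * c) * α v + χ v • (a * c * α v) - a * (N c * α v + χ v • (c * α v))) *
        (1 - α z⁻¹) = f c * α v := by
      have e1 : N (a * c) * α v + χ v • (a * c * α v) - a * (N c * α v + χ v • (c * α v)) =
          (N (a * c) - a * N c) * α v := by
        rw [mul_add, mul_smul_comm, ← mul_assoc, ← mul_assoc, sub_mul]
        abel
      rw [e1, hf, mul_assoc, hv, mul_assoc]
    rw [e] at h3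
    exact h3
  have h1 := hT R V A K q α lam x y f hF hR b
  have e1 : Gz α z x y N (a * b) = ∑ k, f (b * x k) * y k + a * Gz α z x y N b := by
    rw [gz_apply, gz_apply, Finset.mul_sum, ← Finset.sum_add_distrib]
    refine Finset.sum_congr rfl fun k _ => ?_
    rw [hf]
    have e2 : N (a * b * x k) - a * b * N (x k) =
        (N (a * (b * x k)) - a * N (b * x k)) + a * (N (b * x k) - b * N (x k)) := by
      rw [mul_sub, ← mul_assoc, ← mul_assoc]
      abel
    rw [e2, add_mul]
    simp only [mul_assoc]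
  have e3 : Gz α z x y N a * b = (∑ k, f (x k) * y k) * b := by
    rw [gz_apply]
    congr 1
    refine Finset.sum_congr rfl fun k _ => ?_
    rw [hf, mul_assoc]
  rw [e1, e3]
  exact cg_add_right h1 _

end Pool.Agent.PSS.S2.H10
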