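import Pool.Agent.PSS.StmtsS5

/-!
# PSS, block S5, row FRC: the groups
-/

set_option autoImplicit false

open scoped BigOperators TensorProduct

noncomputable section

namespace Pool.Agent.PSS.H10

open Pool.Agent.PSS.S5
open Pool.Agent.PFC (Ctf)

theorem frc : FrcStmt := by
  intro ℓ _ V E _ _ _ _ φ E' hV hE hF hE'
  obtain ⟨U, W, hU, hc, hsU, hsW, hfr⟩ := hF
  have key : ∀ s : E', ∃ e, φ e = s := fun s => hE' s.2
  refine ⟨W, ?_⟩
  exact {
    pr := Fact.out
    pg := hV
    nt := by
      by_contra hcon
      push Not at hcon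
      apply hU
      have h1 : W = ⊤ := by
        rw [eq_top_iff]
        exact fun u _ => hcon u
      have h2 := hc.inf_eq_bot
      rw [h1, inf_top_eq] at h2
      exact h2
    cop := by
      intro h
      apply hE
      have h1 : Nat.card E' ∣ Nat.card φ.range := Subgroup.card_dvd_of_le hE'
      exact h.trans (h1.trans (Subgroup.card_range_dvd φ))
    stab := by
      intro s u hu
      obtain ⟨e, he⟩ := key s
      show (s : MulAut V) u ∈ W
      rw [← he]
      exact hsW e u hu
    cmp := by
      refine ⟨U, hc, ?_⟩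
      intro s u hu
      obtain ⟨e, he⟩ := key s
      show (s : MulAut V) u ∈ U
      rw [← he]
      exact hsU e u hu
    free := by
      intro s u hsu
      by_cases hu : u ∈ W
      · exact Or.inr hu
      left
      obtain ⟨e, he⟩ := key s
      have hs : (s : MulAut V) u = u := hsu
      rw [← he] at hs
      have hm : u ∈ U ⊔ W := by
        rw [hc.sup_eq_top]
        trivial
      obtain ⟨u1, hu1, u2, hu2, hu12⟩ := Subgroup.mem_sup.1 hm
      rw [← hu12, map_mul] at hs
      have h1 : u1⁻¹ * φ e u1 = u2 * (φ e u2)⁻¹ := by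
        rw [inv_mul_eq_iff_eq_mul, ← mul_assoc, eq_mul_inv_iff_mul_eq, hs]
      have h2 : u1⁻¹ * φ e u1 ∈ U ⊓ W := by
        refine ⟨U.mul_mem (U.inv_mem hu1) (hsU e u1 hu1), ?_⟩
        rw [h1]
        exact W.mul_mem hu2 (W.inv_mem (hsW e u2 hu2))
      rw [hc.inf_eq_bot, Subgroup.mem_bot] at h2
      have h3 : φ e u1 = u1 := (inv_mul_eq_one.1 h2).symm
      have hne : u1 ≠ 1 := by
        intro h4
        apply hu
        rw [← hu12, h4, one_mul]
        exact hu2
      have h4 := hfr e u1 hu1 hne h3
      apply Subtype.ext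
      rw [← he, h4]
      rfl }

end Pool.Agent.PSS.H10
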