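import Pool.Agent.PSS.StmtsS5

/-!
# PSS, block S5, row LKC: the local condition for the subgroups with a trivial centraliser in `E`
-/

set_option autoImplicit false

open scoped BigOperators TensorProduct

noncomputable section

namespace Pool.Agent.PSS.H10

open Pool.Agent.PSS.S5
open Pool.Agent.PFC (tw IsTv Cnr Cz PIn Ctf Lcq PmzStmt PS bi)
open Pool.Agent.PSS.S0 (IsBQ BqxStmt)

theorem lkc (lcq : LcqStmt) (nil : NilStmt) (lqx : LqxStmt) (bqx : BqxStmt) : LkcStmt := by
  intro ℓ _ F V E A _ _ _ _ _ _ _ _ _ φ α Q hV hL hQ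
  obtain ⟨E1, hE1⟩ : ∃ E1 : Subgroup E, ∀ e, e ∈ E1 ↔ ∀ q ∈ Q, φ e q = q :=
    ⟨{  carrier := {e | ∀ q ∈ Q, φ e q = q}
        one_mem' := fun q _ => by rw [map_one]; rfl
        mul_mem' := by
          intro a b ha hb q hq
          rw [map_mul, MulAut.mul_apply, hb q hq, ha q hq]
        inv_mem' := by
          intro a ha q hq
          have h1 : φ a q = q := ha q hq
          have h2 : (φ a)⁻¹ (φ a q) = q := MulAut.inv_apply_self _ _ _
          rw [h1] at h2
          rw [map_inv, h2] }, fun e => Iff.rfl⟩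
  obtain ⟨B, _, _, αB, β, hB⟩ := bqx F V A α Q
  have h1 := lcq ℓ F V E A B φ α Q αB β E1 hV hL hB hE1
  have h2 : Mxl F B := nil ℓ F V E1 B (φ.comp E1.subtype) αB hV
    (fun e => hQ e ((hE1 e).1 e.2)) h1
  exact lqx F V A B α Q αB β hB h2

end Pool.Agent.PSS.H10
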