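import Pool.Agent.PSS.StmtsS5

/-!
# PSS, block S5, row NDM: the size of the matrix algebra is prime to `ℓ`
-/

set_option autoImplicit false

open scoped BigOperators TensorProduct

noncomputable section

namespace Pool.Agent.PSS.H10

open Pool.Agent.PSS.S5

theorem ndm (ndl : NdlStmt) (mdv : MdvStmt) : NdmStmt := by
  intro ℓ _ F V E A _ _ _ _ _ _ _ φ α hV hφ hL n π hπ hk hn
  obtain ⟨L, hLd⟩ : ∃ L : Submodule F A, ∀ l, l ∈ L ↔ ∀ v, l * α v = l :=
    ⟨{  carrier := {l | ∀ v, l * α v = l}
        add_mem' := by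
          intro a b ha hb v
          rw [add_mul, ha v, hb v]
        zero_mem' := fun v => zero_mul _
        smul_mem' := by
          intro c a ha v
          rw [smul_mul_assoc, ha v] }, fun l => Iff.rfl⟩
  have h1 := ndl ℓ F V E A φ α hV hφ hL L hLd
  have := hL.fin
  obtain ⟨m, hm⟩ := mdv F A n π hπ hk L (by
    intro a l hl
    rw [hLd] at hl ⊢
    intro v
    rw [mul_assoc, hl v])
  rw [hm, Nat.cast_mul, hn, zero_mul] at h1
  exact zero_ne_one h1

end Pool.Agent.PSS.H10
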