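import Pool.Agent.PSS.StmtsBR

open scoped BigOperators

noncomputable section

namespace Pool.Agent.Helper10.PSS.RCT

open Pool.Agent.PFE (Ctn)
open Pool.Agent.PSS.BR

/-- The restriction of a group of automorphisms to a stable subgroup. -/
def rst {V : Type} [CommGroup V] (W : Subgroup V) (E' : Subgroup (MulAut V))
    (hW : ∀ e ∈ E', ∀ w ∈ W, e w ∈ W) : E' →* MulAut W where
  toFun e :=
    { toFun := fun w => ⟨(e : MulAut V) w, hW _ e.2 _ w.2⟩
      invFun := fun w => ⟨((e : MulAut V)⁻¹ : MulAut V) w, hW _ (E'.inv_mem e.2) _ w.2⟩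
      left_inv := fun w => Subtype.ext (by
        show ((e : MulAut V)⁻¹ : MulAut V) ((e : MulAut V) (w : V)) = w
        rw [← MulAut.mul_apply, inv_mul_cancel, MulAut.one_apply])
      right_inv := fun w => Subtype.ext (by
        show (e : MulAut V) (((e : MulAut V)⁻¹ : MulAut V) (w : V)) = w
        rw [← MulAut.mul_apply, mul_inv_cancel, MulAut.one_apply])
      map_mul' := fun a b => Subtype.ext (map_mul (e : MulAut V) (a : V) (b : V)) }
  map_one' := by
    apply MulEquiv.ext
    intro w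
    rfl
  map_mul' a b := by
    apply MulEquiv.ext
    intro w
    rfl

theorem rst_val {V : Type} [CommGroup V] (W : Subgroup V) (E' : Subgroup (MulAut V))
    (hW : ∀ e ∈ E', ∀ w ∈ W, e w ∈ W) (e : E') (w : W) :
    (rst W E' hW e w : V) = (e : MulAut V) w := rfl

/-- `MulAut` of a group of prime order is cyclic. -/
theorem cyc {W : Type} [Group W] {ℓ : ℕ} [Fact ℓ.Prime] (h : Nat.card W = ℓ) :
    IsCyclic (MulAut W) := by
  have : IsCyclic W := isCyclic_of_prime_card h
  have e := IsCyclic.mulAutMulEquiv W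
  subst h
  exact isCyclic_of_surjective e.symm e.symm.surjective

/-- A subgroup of prime order with two elements. -/
theorem tri {V : Type} [CommGroup V] {W : Subgroup V} {ℓ : ℕ} [Fact ℓ.Prime] (h : Nat.card W = ℓ)
    (a : MulAut V) (w : V) (hw : w ∈ W) (h1 : w ≠ 1) (ha : a w = w) : ∀ v ∈ W, a v = v := by
  intro v hv
  have hz : (⟨v, hv⟩ : W) ∈ Subgroup.zpowers (⟨w, hw⟩ : W) := by
    rw [zpowers_eq_top_of_prime_card h (by
      intro h2
      exact h1 (congrArg Subtype.val h2))]
    exact Subgroup.mem_top _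
  rcases Subgroup.mem_zpowers_iff.1 hz with ⟨k, hk⟩
  have hk' : w ^ k = v := by
    have := congrArg Subtype.val hk
    rwa [SubgroupClass.coe_zpow] at this
  rw [← hk', map_zpow, ha]

theorem rct : RctStmt := by
  intro ℓ hℓ V E _ _ _ _ φ W E' hp hE hR hE'
  rcases hR with ⟨hWp, U, hc, hU, hWs, hUs, hf⟩
  have hW' : ∀ e ∈ E', ∀ w ∈ W, e w ∈ W := by
    intro e he w hw
    rcases hE' he with ⟨g, rfl⟩
    exact hWs g w hw
  have hU' : ∀ e ∈ E', ∀ w ∈ U, e w ∈ U := by
    intro e he w hw
    rcases hE' he with ⟨g, rfl⟩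
    exact hUs g w hw
  have hcard : Nat.card W = ℓ := by
    have : Finite W := inferInstance
    have h1 : IsPGroup ℓ W := hp.to_subgroup W
    rcases IsPGroup.iff_card.1 h1 with ⟨n, hn⟩
    have h2 : Nat.card W ∣ ℓ ^ n := by rw [hn]
    have h3 := hWp.dvd_of_dvd_pow h2
    exact (Nat.prime_dvd_prime_iff_eq hWp hℓ.out).1 h3
  have hWb : W ≠ ⊥ := by
    intro h
    rw [h, Subgroup.card_bot] at hWp
    exact Nat.not_prime_one hWp
  have hWt : ¬ (⊤ : Subgroup V) ≤ W := by
    intro h
    apply hU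
    have := hc.inf_eq_bot
    rwa [top_le_iff.1 h, top_inf_eq] at this
  have hUt : ¬ (⊤ : Subgroup V) ≤ U := by
    intro h
    apply hWb
    have := hc.inf_eq_bot
    rwa [top_le_iff.1 h, inf_top_eq] at this
  have hst : ∀ (X : Subgroup V), (∀ e ∈ E', ∀ w ∈ X, e w ∈ X) → ∀ (e : E') (Q : Subgroup V),
      ¬ Q ≤ X → ¬ Q.map (E'.subtype e).toMonoidHom ≤ X := by
    intro X hX e Q hQ h
    apply hQ
    intro x hx
    have h1 : (e : MulAut V) x ∈ X := h (Subgroup.mem_map_of_mem _ hx)
    have h2 := hX ((e : MulAut V)⁻¹) (E'.inv_mem e.2) _ h1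
    rwa [← MulAut.mul_apply, inv_mul_cancel, MulAut.one_apply] at h2
  refine ⟨hcard, U, hc.inf_eq_bot, hc.sup_eq_top, fun e u hu => hU' _ e.2 u hu, ?_, ?_⟩
  · refine ⟨hℓ.out, hp, ?_, ⟨hWt, hUt⟩, fun h => h.1 bot_le,
      fun Q S h hQS => ⟨fun h1 => h.1 (hQS.trans h1), fun h1 => h.2 (hQS.trans h1)⟩,
      fun e Q h => ⟨hst W hW' e Q h.1, hst U hU' e Q h.2⟩, ?_⟩
    · intro h
      apply hE
      have h1 : Nat.card E' ∣ Nat.card φ.range := Subgroup.card_dvd_of_le hE'
      have h2 : Nat.card φ.range ∣ Nat.card E := Subgroup.card_range_dvd φ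
      exact h.trans (h1.trans h2)
    · rintro Q ⟨hQ1, hQ2⟩ e he
      rcases SetLike.not_le_iff_exists.1 hQ1 with ⟨x, hx, hxW⟩
      rcases SetLike.not_le_iff_exists.1 hQ2 with ⟨y, hy, hyU⟩
      have hdec : ∀ z : V, ∃ w ∈ W, ∃ u ∈ U, w * u = z := by
        intro z
        have : z ∈ W ⊔ U := by rw [hc.sup_eq_top]; exact Subgroup.mem_top z
        exact Subgroup.mem_sup.1 this
      have hfix : ∀ z ∈ Q, ∀ w ∈ W, ∀ u ∈ U, w * u = z → (e : MulAut V) w = w ∧ (e : MulAut V) u = u := by
        intro z hz w hw u hu hwu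
        have h1 : (e : MulAut V) z = z := he z hz
        rw [← hwu, map_mul] at h1
        have h2 : (w⁻¹ * (e : MulAut V) w) = u * ((e : MulAut V) u)⁻¹ := by
          have h3 : (e : MulAut V) w = w * u * ((e : MulAut V) u)⁻¹ := by
            rw [eq_mul_inv_iff_mul_eq]
            exact h1
          rw [h3, mul_assoc, inv_mul_cancel_left]
        have h4 : (w⁻¹ * (e : MulAut V) w) ∈ W ⊓ U := by
          refine ⟨W.mul_mem (W.inv_mem hw) (hW' _ e.2 _ hw), ?_⟩
          rw [h2]
          exact U.mul_mem hu (U.inv_mem (hU' _ e.2 _ hu))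
        rw [hc.inf_eq_bot, Subgroup.mem_bot] at h4
        have h5 : (e : MulAut V) w = w := by
          rw [inv_mul_eq_one] at h4
          exact h4.symm
        refine ⟨h5, ?_⟩
        rw [h5] at h1
        exact mul_left_cancel h1
      rcases hdec y with ⟨w, hw, u, hu, hwu⟩
      rcases hdec x with ⟨w', hw', u', hu', hwu'⟩
      have hw1 : w ≠ 1 := by
        rintro rfl
        apply hyU
        rw [← hwu, one_mul]
        exact hu
      have hu1 : u' ≠ 1 := by
        rintro rfl
        apply hxW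
        rw [← hwu', mul_one]
        exact hw'
      have ha := tri hcard (e : MulAut V) w hw hw1 (hfix y hy w hw u hu hwu).1
      have hb := (hfix x hx w' hw' u' hu' hwu').2
      rcases hE' e.2 with ⟨g, hg⟩
      have hg1 : φ g = 1 := by
        apply hf g (by rw [hg]; exact ha) u' hu' hu1
        rw [hg]
        exact hb
      apply Subtype.ext
      rw [← hg, hg1]
      rfl
  · have : IsCyclic (MulAut W) := cyc hcard
    have : Finite (MulAut W) := inferInstance
    have : IsCyclic (rst W E' hW').range := Subgroup.isCyclic _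
    refine ⟨(rst W E' hW').range, IsCyclic.commGroup, Fintype.ofFinite _, inferInstance,
      (rst W E' hW').range.subtype, ?_, ?_, ?_⟩
    · intro c hc1
      exact Subtype.ext hc1
    · rintro ⟨c, e, rfl⟩
      exact ⟨e, fun v => rfl⟩
    · intro e
      exact ⟨⟨_, e, rfl⟩, fun v => rfl⟩

end Pool.Agent.Helper10.PSS.RCT
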