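import Pool.Agent.PSS.StmtsS0

/-!
# Squad PSS, row RFD: the dual family of a frame
-/

namespace Pool.Agent.PSS.S0.H10

open Pool.Agent.PSS Pool.Agent.PSS.S0
open Pool.Agent.PFD.D2b (FrR)

theorem rf_nd {R V A K : Type} [CommRing R] [CommGroup V] [Fintype V] [Ring A] [Algebra R A]
    [Fintype K] {α : V →* A} {lam : A →ₗ[R] R} {x y : K → A} (h : RF R α lam x y) {z : A}
    (hz : ∀ a, lam (z * a) = 0) : z = 0 := by
  rw [← h.e1 z]
  refine Finset.sum_eq_zero fun k _ => Finset.sum_eq_zero fun v _ => ?_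
  rw [h.sym, hz, zero_smul]

theorem rfd : RfdStmt := by
  intro R V A K Ω _ _ _ _ _ _ _ _ α lam x y b c hF hc hfree
  obtain ⟨c1, c2, c3⟩ := hc
  have hd : ∀ ω a, lam ((∑ k, ∑ v, c ω (x k * α v) • (α v⁻¹ * y k)) * a) = c ω a := by
    intro ω a
    conv_rhs => rw [← hF.e1 a]
    rw [Finset.sum_mul, map_sum, map_sum]
    refine Finset.sum_congr rfl fun k _ => ?_
    rw [Finset.sum_mul, map_sum, map_sum]
    refine Finset.sum_congr rfl fun v _ => ?_
    rw [smul_mul_assoc, map_smul, map_smul, smul_eq_mul, smul_eq_mul, mul_comm]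
  refine ⟨fun ω => ∑ k, ∑ v, c ω (x k * α v) • (α v⁻¹ * y k), fun ω a => (hd ω a).symm, ?_⟩
  refine ⟨hF.sym, ?_, ?_, ?_, hfree⟩
  · intro g ω
    rw [c1]
    show α g.1 * (b ω * α g.2⁻¹) = _
    rw [← mul_assoc]
    rfl
  · intro g ω
    rw [← sub_eq_zero]
    apply rf_nd hF
    intro a
    rw [sub_mul, map_sub, sub_eq_zero, hd]
    have h1 : bw R α g (α g.1⁻¹ * a * α g.2) = a := by
      show α g.1 * (α g.1⁻¹ * a * α g.2 * α g.2⁻¹) = a
      rw [mul_assoc, ← map_mul, mul_inv_cancel, map_one, mul_one, ← mul_assoc, ← map_mul,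
        mul_inv_cancel, map_one, one_mul]
    have h2 := c2 g ω (α g.1⁻¹ * a * α g.2)
    rw [h1] at h2
    rw [h2, ← hd]
    show _ = lam (α g.2 * _ * α g.1⁻¹ * a)
    rw [mul_assoc (α g.2 * _), mul_assoc (α g.2), hF.sym (α g.2)]
    simp only [mul_assoc]
  · intro a
    conv_rhs => rw [← c3 a]
    exact Finset.sum_congr rfl fun ω _ => by rw [hd]

end Pool.Agent.PSS.S0.H10
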