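import Pool.Agent.PSS.StmtsS3

/-!
# PSS, block S3, row UNW: `rt(w) = X • unit`
-/

open scoped BigOperators TensorProduct PowerSeries

noncomputable section

namespace Pool.Agent.PSS.H10

open Pool.Agent.PFC (tw IsTv)
open Pool.Agent.PFD.D2b (FrR)
open Pool.Agent.PSS.S0 Pool.Agent.PSS.S3

section gen

variable {R V A : Type} [CommRing R] [CommGroup V] [Ring A] [Algebra R A] {α : V →* A}

theorem unw_mem {P : Subgroup V} {a : A} (h : ∀ u ∈ P, α u * a = a * α u) :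
    a ∈ FxR (cw R α) P := by
  intro u hu
  show α u * (a * α u⁻¹) = a
  rw [← mul_assoc, h u hu, mul_assoc, ← map_mul, mul_inv_cancel, map_one, mul_one]

theorem unw_comm {P : Subgroup V} {a : A} (h : a ∈ FxR (cw R α) P) {u : V} (hu : u ∈ P) :
    α u * a = a * α u := by
  have h1 : α u * (a * α u⁻¹) = a := h u hu
  calc α u * a = α u * (a * (α u⁻¹ * α u)) := by
        rw [← map_mul, inv_mul_cancel, map_one, mul_one]
    _ = (α u * (a * α u⁻¹)) * α u := by simp only [mul_assoc]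
    _ = a * α u := by rw [h1]

theorem unw_pow (bki : BkiStmt) (bkf : BkfStmt) {P : Subgroup V} {m : A}
    (hm : m ∈ BKR (cw R α) P) (n : ℕ) : m ^ (n + 1) ∈ BKR (cw R α) P := by
  induction n with
  | zero => simpa using hm
  | succ n ih =>
    rw [pow_succ' m (n + 1)]
    exact (bki R V A α P m (bkf R V A (cw R α) P hm) _ ih).1

end gen

theorem unw_frob {A : Type} [Ring A] (ℓ : ℕ) [Fact ℓ.Prime] [CharP A ℓ] {ι : Type}
    (T : Finset ι) (f : ι → A) (h : ∀ i j, f i * f j = f j * f i) (k : ℕ) :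
    (∑ t ∈ T, f t) ^ (ℓ ^ k) = ∑ t ∈ T, (f t) ^ (ℓ ^ k) := by
  classical
  induction T using Finset.induction_on with
  | empty =>
    rw [Finset.sum_empty, Finset.sum_empty, zero_pow]
    exact pow_ne_zero _ (Fact.out (p := ℓ.Prime)).ne_zero
  | insert a T ha ih =>
    rw [Finset.sum_insert ha, Finset.sum_insert ha, ← ih]
    apply add_pow_char_pow_of_commute
    exact Commute.sum_right _ _ _ (fun j _ => h a j)

theorem unw (div : DivStmt) (rdx : RdxStmt) (qbk : QbkStmt) (tfx : TfxStmt) (unx : UnxStmt)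
    (idn : IdnStmt) (mck : MckStmt) (bqx : BqxStmt) (bpu : BpuStmt) (zrt : ZrtStmt)
    (bki : BkiStmt) (bkf : BkfStmt) (res : ResStmt) : UnwStmt := by
  classical
  intro ℓ _ F V E A As K K0 _ _ _ _ _ _ _ _ _ _ _ _ φ α W _ ψ γ q lam lam0 x y x0 y0 hV hE hi D w
  have hW : IsPGroup ℓ W := hV.to_subgroup W
  have hℓR : (ℓ : F⟦X⟧) = 0 := by
    rw [← map_natCast (PowerSeries.C (R := F)) ℓ, CharP.cast_eq_zero, map_zero]
  -- the elements `u_w`
  have hRx := rdx F W A As K (α.comp W.subtype) γ q lam lam0 x y D.sc D.surj D.qw D.lr D.rf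
  have hq0 : ∀ w : W, q (∑ k, x k * γ w * y k) = 0 := by
    intro w
    rw [map_sum]
    have h1 := div ℓ F V A K K0 α W lam0 (fun k => q (x k)) (fun k => q (y k)) x0 y0 D.rf0 hRx hi w
    rw [← h1]
    refine Finset.sum_congr rfl fun k _ => ?_
    rw [map_mul, map_mul, D.qw]
  obtain ⟨uw, huw⟩ := D.ker _ (hq0 w)
  obtain ⟨u, u', huu', hu'u, hu⟩ := D.unt
  have htf := tfx ℓ F W E As ψ γ hW D.per
  -- central elements
  have hmw : ∀ w : W, γ w ∈ FxR (cw F⟦X⟧ γ) ⊤ := by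
    intro w
    apply unw_mem
    intro v _
    rw [← map_mul, ← map_mul, mul_comm]
  have hm1 : (1 : As) ∈ FxR (cw F⟦X⟧ γ) ⊤ := unw_mem fun v _ => by rw [mul_one, one_mul]
  have hcen : ∀ c, c * uw = uw * c := by
    intro c
    have h1 := zrt F⟦X⟧ W As K γ lam x y D.rf (γ w) (hmw w) c
    rw [huw, mul_smul_comm, smul_mul_assoc] at h1
    have h2 := htf.1 (c * uw - uw * c) (by rw [smul_sub, h1, sub_self])
    exact sub_eq_zero.1 h2
  have hcu : ∀ c, c * u = u * c := by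
    intro c
    have h1 := zrt F⟦X⟧ W As K γ lam x y D.rf 1 hm1 c
    simp only [mul_one] at h1
    rw [hu, mul_smul_comm, smul_mul_assoc] at h1
    have h2 := htf.1 (c * u - u * c) (by rw [smul_sub, h1, sub_self])
    exact sub_eq_zero.1 h2
  -- the representatives
  have : Fintype ψ.range := Fintype.ofFinite _
  have hs : ∀ g : ψ.range, ∃ e : E, ψ e = g := fun g => g.2
  choose s hs using hs
  obtain ⟨T, hTd⟩ : ∃ T : Finset E, T = Finset.univ.image s := ⟨_, rfl⟩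
  have hinj : Function.Injective s := by
    intro g g' hg
    apply Subtype.ext
    rw [← hs g, ← hs g', hg]
  have hTc : ¬ ℓ ∣ T.card := by
    intro h
    apply hE
    rw [hTd, Finset.card_image_of_injective _ hinj, Finset.card_univ, ← Nat.card_eq_fintype_card] at h
    exact h.trans (Subgroup.card_range_dvd ψ)
  have hT : ∀ e : E, ∃! t, t ∈ T ∧ ∀ q ∈ (⊤ : Subgroup W), (ψ t)⁻¹ q = (ψ e)⁻¹ q := by
    intro e
    refine ⟨s ⟨ψ e, e, rfl⟩, ⟨?_, ?_⟩, ?_⟩
    · rw [hTd]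
      exact Finset.mem_image_of_mem _ (Finset.mem_univ _)
    · intro v _
      rw [hs]
    · rintro t ⟨ht, ht'⟩
      rw [hTd] at ht
      obtain ⟨g, -, rfl⟩ := Finset.mem_image.1 ht
      have h1 : ψ (s g) = ψ e := by
        have h2 : (ψ (s g))⁻¹ = (ψ e)⁻¹ := by
          apply MulEquiv.ext
          intro v
          exact ht' v trivial
        exact inv_injective h2
      have h3 : g = ⟨ψ e, e, rfl⟩ := by
        apply Subtype.ext
        show (g : MulAut W) = ψ e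
        rw [← h1, hs]
      rw [h3]
  -- units
  choose n n' hn1 hn2 hn3 using D.uni
  -- the Brauer quotient
  obtain ⟨B, _, _, γB, β, hB⟩ := bqx F⟦X⟧ W As γ ⊤
  obtain ⟨-, -, lamB, KB, _, xB, yB, hRB, hlB⟩ := bpu ℓ F⟦X⟧ W E As B K ψ γ ⊤ γB β lam x y ψ.ker
    hℓR hW D.per D.uni D.rf hB (by
      intro e
      constructor
      · intro he v _
        rw [MonoidHom.mem_ker.1 he]
        rfl
      · intro he
        rw [MonoidHom.mem_ker]
        apply MulEquiv.ext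
        intro v
        exact he v trivial)
  have hmk := mck ℓ F⟦X⟧ W E As B K KB ψ γ ⊤ γB β lam x y lamB xB yB n n' T hℓR hW D.per D.rf hB hRB
    hlB (fun e => ⟨hn1 e, hn2 e, hn3 e⟩) hT
  have hcB : ∀ (v : W) (z : B), γB v * z = z * γB v := by
    intro v z
    obtain ⟨a, ha, rfl⟩ := hB.surj z
    rw [← hB.om, ← hB.mul _ (hmw v) _ ha, ← hB.mul _ ha _ (hmw v), unw_comm ha (Subgroup.mem_top v)]
  obtain ⟨S, hS⟩ : ∃ S : B, S = ∑ k, xB k * yB k := ⟨_, rfl⟩
  have hbw : β (∑ k, x k * γ w * y k) = (∑ t ∈ T, γB (ψ t w)) * S := by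
    rw [hmk _ (hmw w), Finset.sum_mul]
    refine Finset.sum_congr rfl fun t _ => ?_
    have h1 : n t * γ w * n' t = γ (ψ t w) := by
      rw [hn3, mul_assoc, hn1, mul_one]
    rw [h1, hB.om, hS, Finset.mul_sum]
    refine Finset.sum_congr rfl fun k _ => ?_
    rw [← hcB, mul_assoc]
  have hb1 : β (∑ k, x k * y k) = (T.card : F⟦X⟧) • S := by
    have h1 := hmk _ hm1
    simp only [mul_one] at h1
    rw [h1]
    have h2 : ∀ t ∈ T, ∑ k, xB k * β (n t * n' t) * yB k = S := by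
      intro t _
      rw [hn1, hB.one, hS]
      simp only [mul_one]
    rw [Finset.sum_congr rfl h2, Finset.sum_const, ← Nat.cast_smul_eq_nsmul F⟦X⟧]
  -- the linear Brauer map
  obtain ⟨bl, hbl⟩ : ∃ bl : FxR (cw F⟦X⟧ γ) ⊤ →ₗ[F⟦X⟧] B, ∀ a, bl a = β a :=
    ⟨{  toFun := fun a => β a
        map_add' := fun a b => hB.add a a.2 b b.2
        map_smul' := fun r a => hB.smul r a a.2 }, fun a => rfl⟩
  obtain ⟨Sg, hSg⟩ : ∃ Sg : As, Sg = ∑ t ∈ T, γ (ψ t w) := ⟨_, rfl⟩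
  have hSgm : Sg ∈ FxR (cw F⟦X⟧ γ) ⊤ := by
    rw [hSg]
    exact Submodule.sum_mem _ fun t _ => hmw _
  have hum : u ∈ FxR (cw F⟦X⟧ γ) ⊤ := unw_mem fun v _ => hcu _
  have huwm : uw ∈ FxR (cw F⟦X⟧ γ) ⊤ := unw_mem fun v _ => hcen _
  have hSgu : Sg * u ∈ FxR (cw F⟦X⟧ γ) ⊤ := by
    apply unw_mem
    intro v hv
    rw [← mul_assoc, unw_comm hSgm hv, mul_assoc, hcu, mul_assoc]
  have hbS : β Sg = ∑ t ∈ T, γB (ψ t w) := by
    have h1 : bl (∑ t ∈ T, (⟨γ (ψ t w), hmw _⟩ : FxR (cw F⟦X⟧ γ) ⊤)) = ∑ t ∈ T, γB (ψ t w) := by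
      rw [map_sum]
      refine Finset.sum_congr rfl fun t _ => ?_
      rw [hbl]
      exact hB.om _
    rw [hbl] at h1
    rw [← h1, hSg]
    congr 1
    rw [Submodule.coe_sum]
  have hem : (T.card : F⟦X⟧) • uw - Sg * u ∈ FxR (cw F⟦X⟧ γ) ⊤ :=
    Submodule.sub_mem _ (Submodule.smul_mem _ _ huwm) hSgu
  have hbk : (T.card : F⟦X⟧) • uw - Sg * u ∈ BKR (cw F⟦X⟧ γ) ⊤ := by
    apply htf.2 ⊤ _ hem
    rw [← hB.ker _ (Submodule.smul_mem _ _ hem)]
    have h1 : (PowerSeries.X : F⟦X⟧) • ((T.card : F⟦X⟧) • uw - Sg * u) =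
        (T.card : F⟦X⟧) • ∑ k, x k * γ w * y k - Sg * ∑ k, x k * y k := by
      rw [huw, hu, smul_sub, smul_comm, mul_smul_comm]
    have hr : ∑ k, x k * γ w * y k ∈ FxR (cw F⟦X⟧ γ) ⊤ := by
      rw [huw]
      exact Submodule.smul_mem _ _ huwm
    have hr1 : ∑ k, x k * y k ∈ FxR (cw F⟦X⟧ γ) ⊤ := by
      rw [hu]
      exact Submodule.smul_mem _ _ hum
    have hr2 : Sg * ∑ k, x k * y k ∈ FxR (cw F⟦X⟧ γ) ⊤ := by
      rw [hu, mul_smul_comm]
      exact Submodule.smul_mem _ _ hSgu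
    have h2 : β ((T.card : F⟦X⟧) • ∑ k, x k * γ w * y k - Sg * ∑ k, x k * y k) =
        β ((T.card : F⟦X⟧) • ∑ k, x k * γ w * y k) - β (Sg * ∑ k, x k * y k) := by
      have h3 := map_sub bl (⟨_, Submodule.smul_mem _ (T.card : F⟦X⟧) hr⟩ : FxR (cw F⟦X⟧ γ) ⊤)
        ⟨_, hr2⟩
      rw [hbl, hbl, hbl] at h3
      exact h3
    rw [h1, h2, hB.smul _ _ hr, hB.mul _ hSgm _ hr1, hbw, hb1, hbS, mul_smul_comm, sub_self]
  -- reduction modulo `X`
  have hqb := (qbk F W A As (α.comp W.subtype) γ q D.sc D.qw ⊤).2 _ hbk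
  rw [(res F V A α W ⊤).2] at hqb
  obtain ⟨P, hP⟩ : ∃ P : Subgroup V, P = (⊤ : Subgroup W).map W.subtype := ⟨_, rfl⟩
  rw [← hP] at hqb
  have hcA : ∀ a : A, a * q uw = q uw * a := by
    intro a
    obtain ⟨a, rfl⟩ := D.surj a
    rw [← map_mul, hcen, map_mul]
  have hcAu : ∀ a : A, a * q u = q u * a := by
    intro a
    obtain ⟨a, rfl⟩ := D.surj a
    rw [← map_mul, hcu, map_mul]
  have hqu : q u * q u' = 1 := by rw [← map_mul, huu', map_one]
  have hqu' : q u' * q u = 1 := by rw [← map_mul, hu'u, map_one]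
  have hcAu' : ∀ a : A, a * q u' = q u' * a := by
    intro a
    calc a * q u' = q u' * q u * (a * q u') := by rw [hqu', one_mul]
      _ = q u' * (q u * a) * q u' := by simp only [mul_assoc]
      _ = q u' * (a * q u) * q u' := by rw [hcAu]
      _ = q u' * a * (q u * q u') := by simp only [mul_assoc]
      _ = q u' * a := by rw [hqu, mul_one]
  obtain ⟨z, hz⟩ : ∃ z : A, z = q uw * q u' := ⟨_, rfl⟩
  have hzc : ∀ a, z * a = a * z := by
    intro a
    rw [hz, mul_assoc, ← hcAu', ← mul_assoc, ← hcA, mul_assoc]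
  have hquw : z * q u = q uw := by
    rw [hz, mul_assoc, hqu', mul_one]
  rcases subsingleton_or_nontrivial A with hA | hA
  · obtain ⟨v, hv1, hv2⟩ := unx F W E A As ψ γ q D.per D.surj D.ker uw 1
      (Subsingleton.elim _ _) (Subsingleton.elim _ _)
    exact ⟨uw, v, hv1, hv2, huw⟩
  have : CharP A ℓ := charP_of_injective_algebraMap (algebraMap F A).injective ℓ
  have hNz : (T.card : A) * z - ∑ t ∈ T, α (ψ t w) ∈ BKR (cw F α) P := by
    have hcm : q u' ∈ FxR (cw F α) P := unw_mem fun v _ => hcAu' _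
    have h1 := (bki F V A α P _ hcm _ hqb).2
    have h2 : q ((T.card : F⟦X⟧) • uw - Sg * u) * q u' =
        (T.card : A) * z - ∑ t ∈ T, α (ψ t w) := by
      have h3 : (T.card : F⟦X⟧) • uw = (T.card : As) * uw := by
        rw [Algebra.smul_def, map_natCast]
      rw [h3, map_sub, map_mul, map_mul, map_natCast, sub_mul, mul_assoc, mul_assoc, hqu, mul_one,
        ← hz, hSg, map_sum]
      simp only [D.qw]
    rw [h2] at h1
    exact h1
  obtain ⟨k, hk⟩ := hW w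
  have hℓk : ℓ ^ k ≠ 0 := pow_ne_zero _ (Fact.out (p := ℓ.Prime)).ne_zero
  have hcomm : ∀ t t' : E, α (ψ t w) * α (ψ t' w) = α (ψ t' w) * α (ψ t w) := by
    intro t t'
    rw [← map_mul, ← map_mul, mul_comm]
  have hpow : ((T.card : A) * z - ∑ t ∈ T, α (ψ t w)) ^ (ℓ ^ k) = (T.card : A) * (z - 1) ^ (ℓ ^ k) := by
    have h0 : ((T.card : A)) ^ (ℓ ^ k) = (T.card : A) := by
      have h1 := unw_frob (A := A) ℓ T (fun _ => (1 : A)) (fun _ _ => rfl) k
      simpa using h1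
    rw [sub_pow_char_pow_of_commute, unw_frob ℓ T _ hcomm, Commute.mul_pow, h0,
      sub_pow_char_pow_of_commute, one_pow, mul_sub, mul_one]
    · congr 1
      have h1 : ∀ t ∈ T, α (ψ t w) ^ (ℓ ^ k) = 1 := by
        intro t _
        rw [← map_pow, ← Subgroup.coe_pow, ← map_pow, hk, map_one]
        simp
      rw [Finset.sum_congr rfl h1]
      simp
    · exact Commute.one_right _
    · exact (Nat.cast_commute _ _)
    · exact Commute.mul_left (Nat.cast_commute _ _) (hzc _)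
  have hz1 : (z - 1) ^ (ℓ ^ k) ∈ BKR (cw F α) P := by
    obtain ⟨j, hj⟩ := Nat.exists_eq_succ_of_ne_zero hℓk
    have h1 := unw_pow bki bkf hNz j
    rw [← Nat.succ_eq_add_one, ← hj, hpow] at h1
    have hne : (T.card : F) ≠ 0 := by
      intro h
      exact hTc ((CharP.cast_eq_zero_iff F ℓ _).1 h)
    have h2 := Submodule.smul_mem _ ((T.card : F)⁻¹) h1
    have h3 : (T.card : A) = algebraMap F A (T.card : F) := by rw [map_natCast]
    rw [h3, ← Algebra.smul_def, smul_smul, inv_mul_cancel₀ hne, one_smul] at h2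
    exact h2
  have hnil : IsNilpotent (z - 1) := by
    have h1 := idn ℓ F V E A φ α P ((z - 1) ^ (ℓ ^ k)) hV D.cl (by
      intro a
      have h2 : Commute (z - 1) a := by
        show (z - 1) * a = a * (z - 1)
        rw [sub_mul, mul_sub, hzc, one_mul, mul_one]
      exact (h2.pow_left _)) hz1
    obtain ⟨j, hj⟩ := h1
    exact ⟨ℓ ^ k * j, by rw [pow_mul, hj]⟩
  have hzu : IsUnit z := by
    have h1 := hnil.isUnit_one_add
    have h2 : 1 + (z - 1) = z := by abel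
    rwa [h2] at h1
  obtain ⟨zu, hzu⟩ := hzu
  have hz2 : z * (zu⁻¹ : Aˣ) = 1 := by rw [← hzu]; exact zu.mul_inv
  have hz3 : ((zu⁻¹ : Aˣ) : A) * z = 1 := by rw [← hzu]; exact zu.inv_mul
  obtain ⟨v, hv1, hv2⟩ := unx F W E A As ψ γ q D.per D.surj D.ker uw (q u' * (zu⁻¹ : Aˣ)) (by
      rw [← hquw, mul_assoc, ← mul_assoc (q u), hqu, one_mul, hz2]) (by
      rw [← hquw, mul_assoc, ← mul_assoc _ z, hz3, one_mul, hqu'])
  exact ⟨uw, v, hv1, hv2, huw⟩

end Pool.Agent.PSS.H10
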