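import Pool.Agent.PSS.StmtsS5

/-!
# PSS, block S5, row ZSM: the centre is the direct sum of its parts
-/

set_option autoImplicit false

open scoped BigOperators TensorProduct

noncomputable section

namespace Pool.Agent.PSS.H10

open Pool.Agent.PSS.S5

/-- the centre is the product of its parts -/
def zsmEquiv (F A : Type) [Field F] [Ring A] [Algebra F A] (n : ℕ) (b : Fin n → A)
    (hc : ∀ i a, b i * a = a * b i) (hi : ∀ i, b i * b i = b i)
    (ho : ∀ i k, i ≠ k → b i * b k = 0) (hs : ∑ i, b i = 1) :
    Subalgebra.center F A ≃ₗ[F] (∀ i, zb F (b i)) where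
  toFun := fun z i => ⟨(z : A) * b i, by
    have hz : ∀ a : A, a * (z : A) = z * a := Subalgebra.mem_center_iff.1 z.2
    refine ⟨fun a => ?_, ?_⟩
    · rw [mul_assoc, hc, ← mul_assoc, ← hz, mul_assoc]
    · rw [mul_assoc, hi]⟩
  map_add' := by
    intro x y
    funext i
    apply Subtype.ext
    show ((x : A) + y) * b i = (x : A) * b i + (y : A) * b i
    rw [add_mul]
  map_smul' := by
    intro r x
    funext i
    apply Subtype.ext
    show (r • (x : A)) * b i = r • ((x : A) * b i)
    rw [smul_mul_assoc]
  invFun := fun f => ⟨∑ i, (f i : A), by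
    rw [Subalgebra.mem_center_iff]
    intro a
    rw [Finset.mul_sum, Finset.sum_mul]
    exact Finset.sum_congr rfl fun i _ => ((f i).2.1 a).symm⟩
  left_inv := by
    intro z
    apply Subtype.ext
    show ∑ i, (z : A) * b i = z
    rw [← Finset.mul_sum, hs, mul_one]
  right_inv := by
    intro f
    funext i
    apply Subtype.ext
    show (∑ k, (f k : A)) * b i = f i
    rw [Finset.sum_mul, Finset.sum_eq_single i]
    · exact (f i).2.2
    · intro k _ hk
      rw [← (f k).2.2, mul_assoc, ho k i hk, mul_zero]
    · intro h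
      exact absurd (Finset.mem_univ i) h

theorem zsm : ZsmStmt := by
  intro F A _ _ _ _ n b hc hi ho hs
  rw [(zsmEquiv F A n b hc hi ho hs).finrank_eq, Module.finrank_pi_fintype]

end Pool.Agent.PSS.H10
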